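import Pool.Agent.MP_474a86_an.Nec

open Pool.Agent.MP_474a86_an ComplexConjugate

/-- Characterisation of the magnitude-determining pairs of windows, for every degree `n ≥ 1`. -/
theorem Pool.Agent.Results.MP_474a86_an.Characterization.result (n : ℕ) (hn : 1 ≤ n)
    (w₁ w₂ : Fin (n + 1) → ℂ) :
    Determining n w₁ w₂ ↔
      (w₁ 0 * w₁ (Fin.last n) ≠ 0 ∨ w₂ 0 * w₂ (Fin.last n) ≠ 0) ∧
      ∀ i j m : Fin (n + 1), (j : ℕ) ≤ i → (i : ℕ) < n → (i : ℕ) + m = j + n →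
        w₁ i * conj (w₁ j) * (w₂ (Fin.last n) * conj (w₂ m)) ≠
          w₂ i * conj (w₂ j) * (w₁ (Fin.last n) * conj (w₁ m)) :=
  ⟨fun h => ⟨stepA h hn, fun i j m => necessary h i j m⟩,
    fun h => sufficient w₁ w₂ h.1 h.2⟩
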